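import Pool.Agent.H11.Cake.Final
import Pool.Agent.H25.Cake2.Core

/-!
# Envy-free cake cutting with polynomially many queries

There is a discrete envy-free protocol in the Robertson–Webb query model, defined for every number
`n ≥ 1` of agents, which makes at most `C * n ^ 13` queries.
-/

namespace Pool.Agent.Results.MP_e48dc1_lc.PolynomialProtocol

open H85.Cake

/-- There is a family of discrete envy-free protocols, one for each number `n ≥ 1` of agents, making
at most `C * n ^ 13` CUT and EVALUATE queries, for a constant `C`. -/
theorem result : ∃ (P : (n : ℕ) → Proto n) (C : ℕ), ∀ n : ℕ, 1 ≤ n →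
    (P n).EnvyFree ∧ (P n).Within (C * n ^ 13) := by
  classical
  obtain ⟨C, hC⟩ := H11.Cake.finalP (fun G _ _ _ h2 _ hM => H25.Cake.core h2 hM)
  refine ⟨fun n => if h : 1 ≤ n then (hC n h).choose else Proto.leaf (fun _ => ∅), C,
    fun n hn => ?_⟩
  simp only [hn, dite_true]
  exact (hC n hn).choose_spec

end Pool.Agent.Results.MP_e48dc1_lc.PolynomialProtocol
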